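import Mathlib
import Pool.Agent.Helper64.PQ.Goals

set_option autoImplicit false

/-!
# Packet PQ-B3 (MP_2b9d24_gt): left multiplications on the cusps
-/

open Topology Filter Set Metric UpperHalfPlane
open scoped MatrixGroups
open Pool.Agent.Helper64.PQ

namespace Pool.Agent.Helper93.PQ

theorem lm_mkC {Γ : Subgroup SL(2, ℝ)} (γ b : Γ) : lm γ (mkC b) = mkC (γ * b) := rfl

theorem lm_pow {Γ : Subgroup SL(2, ℝ)} (γ b : Γ) (m : ℕ) :
    (lm γ ^ m) (mkC b) = mkC (γ ^ m * b) := by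
  induction m with
  | zero =>
    rw [pow_zero, pow_zero, one_mul]
    rfl
  | succ m ih =>
    rw [pow_succ', Equiv.Perm.mul_apply, ih, lm_mkC, pow_succ', mul_assoc]

theorem mkC_eq {Γ : Subgroup SL(2, ℝ)} {a b : Γ} (h : ((a⁻¹ * b : Γ) : SL(2, ℝ)) 1 0 = 0) :
    mkC a = mkC b := Quotient.sound h

theorem mkC_ne {Γ : Subgroup SL(2, ℝ)} {a b : Γ} (h : ((a⁻¹ * b : Γ) : SL(2, ℝ)) 1 0 ≠ 0) :
    mkC b ≠ mkC a := by
  intro hc
  exact h (Quotient.exact hc.symm)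

theorem ne_mkC {Γ : Subgroup SL(2, ℝ)} {a b : Γ} (h : mkC b ≠ mkC a) :
    ((a⁻¹ * b : Γ) : SL(2, ℝ)) 1 0 ≠ 0 := by
  intro hc
  exact h (mkC_eq hc).symm

/-- the matrix of a translation -/
theorem transl (M : SL(2, ℝ)) (n : ℤ) (h : ∀ z : ℍ, ((M • z : ℍ) : ℂ) = z + n) :
    M 1 0 = 0 ∧ M 0 0 = M 1 1 ∧ M 0 1 = n * M 1 1 ∧ M 1 1 ≠ 0 := by
  have key : ∀ y : ℝ, 0 < y → (M 0 1 = n * M 1 1 - y ^ 2 * M 1 0) ∧
      (y * M 0 0 = y * M 1 1 + n * (y * M 1 0)) := by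
    intro y hy
    have h1 := h ⟨⟨0, y⟩, hy⟩
    rw [UpperHalfPlane.coe_specialLinearGroup_apply] at h1
    have hd : ((M 1 0 : ℝ) : ℂ) * ((⟨⟨0, y⟩, hy⟩ : ℍ) : ℂ) + ((M 1 1 : ℝ) : ℂ) ≠ 0 := by
      have := UpperHalfPlane.denom_ne_zero M (⟨⟨0, y⟩, hy⟩ : ℍ)
      simpa [UpperHalfPlane.denom] using this
    have hd' : ((algebraMap ℝ ℝ (M 1 0) : ℝ) : ℂ) * ((⟨⟨0, y⟩, hy⟩ : ℍ) : ℂ)
        + ((algebraMap ℝ ℝ (M 1 1) : ℝ) : ℂ) ≠ 0 := hd
    rw [div_eq_iff hd'] at h1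
    have hre := congrArg Complex.re h1
    have him := congrArg Complex.im h1
    simp at hre him
    constructor
    · linarith [hre]
    · linarith [him]
  have k1 := key 1 one_pos
  have k2 := key 2 two_pos
  have h10 : M 1 0 = 0 := by linarith [k1.1, k2.1]
  have h00 : M 0 0 = M 1 1 := by
    have := k1.2
    rw [h10] at this
    linarith
  have h01 : M 0 1 = n * M 1 1 := by
    have := k1.1
    rw [h10] at this
    linarith
  refine ⟨h10, h00, h01, ?_⟩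
  intro h0
  have hdet := M.det_coe
  rw [Matrix.det_fin_two, h10, h0] at hdet
  simp at hdet

/-- the effect of a translation on `rr` -/
theorem rr_transl (M g : SL(2, ℝ)) (n : ℤ) (h10 : M 1 0 = 0) (h00 : M 0 0 = M 1 1)
    (h01 : M 0 1 = n * M 1 1) (h11 : M 1 1 ≠ 0) (hg : g 1 0 ≠ 0) (m : ℕ) :
    (M ^ m * g) 1 0 ≠ 0 ∧ rr (M ^ m * g) = rr g + m * n := by
  induction m with
  | zero =>
    rw [pow_zero, one_mul]
    exact ⟨hg, by simp⟩
  | succ m ih =>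
    obtain ⟨i1, i2⟩ := ih
    set k := M ^ m * g with hk
    have e : M ^ (m + 1) * g = M * k := by rw [pow_succ', mul_assoc]
    have e10 : (M * k) 1 0 = M 1 1 * k 1 0 := by
      rw [Matrix.SpecialLinearGroup.coe_mul, Matrix.mul_apply, Fin.sum_univ_two, h10, zero_mul,
        zero_add]
    have e00 : (M * k) 0 0 = M 1 1 * k 0 0 + n * M 1 1 * k 1 0 := by
      rw [Matrix.SpecialLinearGroup.coe_mul, Matrix.mul_apply, Fin.sum_univ_two, h00, h01]
    rw [e]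
    refine ⟨?_, ?_⟩
    · rw [e10]
      exact mul_ne_zero h11 i1
    · have : rr (M * k) = rr k + n := by
        unfold rr
        rw [e10, e00]
        field_simp
      rw [this, i2]
      push_cast
      ring

/-- **GOAL B3** -/
theorem goalB3 (hB1 : GoalB1) : GoalB3 := by
  intro Γ hΓ
  refine ⟨?_, ?_⟩
  · intro γ x y z hy hz
    induction x using Quotient.inductionOn with | _ a => ?_
    induction y using Quotient.inductionOn with | _ b => ?_
    induction z using Quotient.inductionOn with | _ c => ?_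
    change mkC b ≠ mkC a at hy
    change mkC c ≠ mkC a at hz
    change dd Γ (mkC (γ * a)) (mkC (γ * b)) (mkC (γ * c)) = dd Γ (mkC a) (mkC b) (mkC c)
    have hy' : mkC (γ * b) ≠ mkC (γ * a) := by
      rw [← lm_mkC, ← lm_mkC]
      exact fun h => hy ((lm γ).injective h)
    have hz' : mkC (γ * c) ≠ mkC (γ * a) := by
      rw [← lm_mkC, ← lm_mkC]
      exact fun h => hz ((lm γ).injective h)
    rw [hB1 Γ hΓ _ _ _ hy' hz', hB1 Γ hΓ _ _ _ hy hz]
    have e : ∀ u v : Γ, (((γ * u : Γ) : SL(2, ℝ)))⁻¹ * ((γ * v : Γ) : SL(2, ℝ))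
        = (u : SL(2, ℝ))⁻¹ * v := by
      intro u v
      rw [Subgroup.coe_mul, Subgroup.coe_mul]
      group
    rw [e, e]
  · intro a γ n hn hM
    obtain ⟨h10, h00, h01, h11⟩ := transl _ n hM
    have h1 : lm γ (mkC a) = mkC a := by
      rw [lm_mkC]
      symm
      apply mkC_eq
      have e : ((a⁻¹ * (γ * a) : Γ) : SL(2, ℝ)) = (a : SL(2, ℝ))⁻¹ * γ * a := by
        rw [Subgroup.coe_mul, Subgroup.coe_mul, Subgroup.coe_inv, mul_assoc]
      rw [e]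
      exact h10
    refine ⟨h1, ?_⟩
    intro x hx m
    induction x using Quotient.inductionOn with | _ b => ?_
    change mkC b ≠ mkC a at hx
    change dd Γ (mkC a) (mkC b) ((lm γ ^ m) (mkC b)) = n.natAbs * m
    rw [lm_pow]
    have hb : ((a : SL(2, ℝ))⁻¹ * b) 1 0 ≠ 0 := by
      have := ne_mkC hx
      rwa [Subgroup.coe_mul, Subgroup.coe_inv] at this
    have e : (a : SL(2, ℝ))⁻¹ * ((γ ^ m * b : Γ) : SL(2, ℝ))
        = ((a : SL(2, ℝ))⁻¹ * γ * a) ^ m * ((a : SL(2, ℝ))⁻¹ * b) := by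
      rw [Subgroup.coe_mul, Subgroup.coe_pow]
      have : ((a : SL(2, ℝ))⁻¹ * γ * a) ^ m = (a : SL(2, ℝ))⁻¹ * (γ : SL(2, ℝ)) ^ m * a := by
        have := conj_pow (i := m) (a := (a : SL(2, ℝ))⁻¹) (b := (γ : SL(2, ℝ)))
        rwa [inv_inv] at this
      rw [this]
      group
    obtain ⟨g1, g2⟩ := rr_transl _ ((a : SL(2, ℝ))⁻¹ * b) n h10 h00 h01 h11 hb m
    have hx' : mkC (γ ^ m * b) ≠ mkC a := by
      apply mkC_ne
      rw [Subgroup.coe_mul, Subgroup.coe_inv, e]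
      exact g1
    rw [hB1 Γ hΓ _ _ _ hx hx', e, g2]
    have e2 : |rr ((a : SL(2, ℝ))⁻¹ * b) + m * n - rr ((a : SL(2, ℝ))⁻¹ * b)|
        = ((n.natAbs * m : ℕ) : ℝ) := by
      rw [add_sub_cancel_left, abs_mul, Nat.abs_cast]
      push_cast
      rw [Nat.cast_natAbs, Int.cast_abs, mul_comm]
    rw [e2, Nat.ceil_natCast]

end Pool.Agent.Helper93.PQ
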